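import Pool.Agent.X22.ND9

/-!
# Roots of polynomial congruences modulo primes: equidistribution with square-root error for almost all shifts of given polynomials from arbitrarily
thin families

Nothing is used besides Mathlib in the statement.
-/

set_option autoImplicit false

namespace Pool.Agent.Results.MP_fd299c_nt.FewDigitShifts

open Finset Polynomial

/-- The sum over the odd primes `p ≤ x` and the roots `ν`, `0 ≤ ν < p`, of `f` modulo `p` of `φ_p (ν)` minus the mean value of `φ_p` over all residues modulo `p`. -/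
noncomputable def rootSum (f : ℤ[X]) (φ : ℕ → ℕ → ℝ) (x : ℕ) : ℝ :=
  ∑ p ∈ (range (x + 1)).filter (fun p => p.Prime ∧ p ≠ 2),
    ∑ ν ∈ (range p).filter (fun ν : ℕ => (p : ℤ) ∣ f.eval (ν : ℤ)), (φ p ν - (∑ a ∈ range p, φ p a) / p)

/-- The digit number `i` (counted from the right, beginning with `0`) of `n` in base `b`. -/
def digit (b i n : ℕ) : ℕ := n / b ^ i % b

/-- The number which arises from the number `N` with at most `K` digits in base `b`, if for every `i ∈ S`
the digit number `i` is replaced by `f i`. -/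
def change (b K N : ℕ) (f : ℕ → ℕ) (S : Finset ℕ) : ℕ :=
  ∑ i ∈ range K, (if i ∈ S then f i else digit b i N) * b ^ i

open Classical in
/-- The number of the choices of `r` of `K` positions for which the number obtained by
changing the digits of `N` at the chosen positions (according to `f`) does not have the property `E`. -/
noncomputable def exceptions (b K r N : ℕ) (f : ℕ → ℕ) (E : ℕ → Prop) : ℕ :=
  ((powersetCard r (range K)).filter (fun S => ¬ E (change b K N f S))).card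

open Pool.Agent.X22.ND (op mem_op mz_law_one absorb cardop_le)

/-- the inner sum -/
noncomputable def Z (h : ℤ[X]) (φ : ℕ → ℕ → ℝ) (p t : ℕ) : ℝ :=
  ∑ ν ∈ (range p).filter (fun ν : ℕ => (p : ℤ) ∣ (h.comp (X - C (t : ℤ))).eval (ν : ℤ)), (φ p ν - (∑ a ∈ range p, φ p a) / p)

section
variable {p : ℕ} [hf : Fact p.Prime]

lemma sum_range_zmod (F : ZMod p → ℝ) : ∑ t ∈ range p, F (t : ZMod p) = ∑ t : ZMod p, F t := by
  apply sum_nbij' (fun t : ℕ => (t : ZMod p)) (fun z : ZMod p => z.val)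
  · intro t _
    exact mem_univ _
  · intro z _
    rw [mem_range]
    exact ZMod.val_lt z
  · intro t ht
    rw [mem_range] at ht
    exact ZMod.val_cast_of_lt ht
  · intro z _
    exact ZMod.natCast_zmod_val z
  · intro t _
    rfl

lemma root_iff (h : ℤ[X]) (ν t : ℕ) : (p : ℤ) ∣ (h.comp (X - C (t : ℤ))).eval (ν : ℤ) ↔
    (h.map (Int.castRingHom (ZMod p))).eval ((ν : ZMod p) - (t : ZMod p)) = 0 := by
  rw [eval_comp, eval_sub, eval_X, eval_C, ← ZMod.intCast_zmod_eq_zero_iff_dvd]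
  have h1 := Polynomial.eval_intCast_map (Int.castRingHom (ZMod p)) h ((ν : ℤ) - (t : ℤ))
  have h2 : ((((ν : ℤ) - (t : ℤ) : ℤ)) : ZMod p) = (ν : ZMod p) - (t : ZMod p) := by push_cast; rfl
  rw [h2] at h1
  rw [h1]
  rfl

/-- the indicator function of the roots -/
noncomputable def I (h : ℤ[X]) (z : ZMod p) : ℝ := if (h.map (Int.castRingHom (ZMod p))).eval z = 0 then 1 else 0

lemma Z_eq (h : ℤ[X]) (φ : ℕ → ℕ → ℝ) (t : ℕ) :
    Z h φ p t = ∑ ν ∈ range p, (φ p ν - (∑ a ∈ range p, φ p a) / p) * I h ((ν : ZMod p) - (t : ZMod p)) := by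
  unfold Z
  rw [sum_filter]
  apply sum_congr rfl
  intro ν _
  unfold I
  have h1 := root_iff (p := p) h ν t
  by_cases h2 : (p : ℤ) ∣ (h.comp (X - C (t : ℤ))).eval (ν : ℤ)
  · rw [if_pos h2, if_pos (h1.1 h2), mul_one]
  · rw [if_neg h2, if_neg (fun h3 => h2 (h1.2 h3)), mul_zero]

lemma Z_mod (h : ℤ[X]) (φ : ℕ → ℕ → ℝ) (t : ℕ) : Z h φ p t = Z h φ p (t % p) := by
  rw [Z_eq, Z_eq, ZMod.natCast_mod]

lemma sum_I (h : ℤ[X]) (hm : h.Monic) : ∑ z : ZMod p, I h z ≤ h.natDegree := by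
  unfold I
  rw [sum_boole]
  have h1 : (h.map (Int.castRingHom (ZMod p))) ≠ 0 := (hm.map _).ne_zero
  have h2 : univ.filter (fun z : ZMod p => (h.map (Int.castRingHom (ZMod p))).eval z = 0) ⊆ (h.map (Int.castRingHom (ZMod p))).roots.toFinset := by
    intro z hz
    rw [mem_filter] at hz
    rw [Multiset.mem_toFinset, mem_roots h1]
    exact hz.2
  have h3 := (card_le_card h2).trans ((Multiset.toFinset_card_le _).trans (card_roots' _))
  have h4 := h3.trans (natDegree_map_le)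
  exact_mod_cast h4

lemma Z_le (n : ℕ) (h : ℤ[X]) (hm : h.Monic) (hn : h.natDegree ≤ n) (φ : ℕ → ℕ → ℝ) (hφ : ∀ p a, |φ p a| ≤ 1) (t : ℕ) : |Z h φ p t| ≤ 2 * n := by
  have hp0 : (0 : ℝ) < p := by exact_mod_cast hf.out.pos
  have hI0 : ∀ z : ZMod p, 0 ≤ I h z := by
    intro z
    unfold I
    split_ifs
    · exact zero_le_one
    · exact le_rfl
  have hmean : |(∑ a ∈ range p, φ p a) / (p : ℝ)| ≤ 1 := by
    rw [abs_div, abs_of_pos hp0, div_le_one hp0]
    refine (abs_sum_le_sum_abs _ _).trans ?_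
    refine (sum_le_sum (fun a _ => hφ p a)).trans ?_
    rw [sum_const, card_range, nsmul_eq_mul, mul_one]
  rw [Z_eq]
  refine (abs_sum_le_sum_abs _ _).trans ?_
  have h1 : ∀ ν ∈ range p, |(φ p ν - (∑ a ∈ range p, φ p a) / p) * I h ((ν : ZMod p) - (t : ZMod p))| ≤ 2 * I h ((ν : ZMod p) - (t : ZMod p)) := by
    intro ν _
    rw [abs_mul, abs_of_nonneg (hI0 _)]
    apply mul_le_mul_of_nonneg_right _ (hI0 _)
    have h3 := hφ p ν
    have h4 := abs_sub (φ p ν) ((∑ a ∈ range p, φ p a) / p)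
    linarith
  refine (sum_le_sum h1).trans ?_
  rw [← mul_sum, sum_range_zmod (fun z => I h (z - (t : ZMod p)))]
  have h2 : ∑ z : ZMod p, I h (z - (t : ZMod p)) = ∑ z : ZMod p, I h z :=
    Fintype.sum_equiv (Equiv.subRight (t : ZMod p)) _ _ (fun z => rfl)
  rw [h2]
  have h3 := sum_I (p := p) h hm
  have h4 : (h.natDegree : ℝ) ≤ n := by exact_mod_cast hn
  linarith

lemma Z_mean (h : ℤ[X]) (φ : ℕ → ℕ → ℝ) : ∑ t ∈ range p, Z h φ p t = 0 := by
  have hp0 : (p : ℝ) ≠ 0 := by exact_mod_cast hf.out.ne_zero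
  simp only [Z_eq]
  rw [sum_comm]
  have h1 : ∀ ν ∈ range p, ∑ t ∈ range p, (φ p ν - (∑ a ∈ range p, φ p a) / p) * I h ((ν : ZMod p) - (t : ZMod p)) =
      (φ p ν - (∑ a ∈ range p, φ p a) / p) * ∑ z : ZMod p, I h z := by
    intro ν _
    rw [← mul_sum, sum_range_zmod (fun z => I h ((ν : ZMod p) - z))]
    congr 1
    exact Fintype.sum_equiv (Equiv.subLeft (ν : ZMod p)) _ _ (fun z => rfl)
  rw [sum_congr rfl h1, ← sum_mul, sum_sub_distrib, sum_const, card_range, nsmul_eq_mul, mul_div_cancel₀ _ hp0, sub_self, zero_mul]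

end

/-- **Roots modulo primes of almost all shifts.** Let a base `b ≥ 2`, an integer `n ≥ 0`, `δ > 0` and an integer `A ≥ 0` be given. There are `c > 0` and `y₀` such that for
all integers `r`, `K`, `y` with `2 r ≤ K` and `y ≥ y₀` the following holds.

Let `0 ≤ N < b ^ K` be an arbitrary integer, prescribe for every position `j` a digit `g j` different from the digit of
`N` in base `b`, and let `Λ x` be for every `x` any set of at most `x ^ A` pairs `(h, φ)` of a monic polynomial `h` of degree at most `n` with integral coefficients and functions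
`φ_p (a)` with `|φ_p (a)| ≤ 1` (for example `cos (2 π k a / p)` or the indicator function of `α ≤ a / p < β`, for the primes `p` for which `h` has a given number of roots modulo `p`,
and `0` for the other primes). If one chooses `r` of the `K` positions and replaces the digits of `N` at these positions, then for all but at most a proportion
`1 / y ^ A` of the choices the number `t` obtained has the following property: for all integers `x` with
`y ≤ x ≤ exp (c r)` and all `(h, φ) ∈ Λ x` the sum over the odd primes `p ≤ x` and all roots `ν` modulo `p`, `0 ≤ ν < p`, of the polynomial `f (X) = h (X - t)` of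
`φ_p (ν)` minus the mean value of `φ_p` over all residues is at most `x ^ (1 / 2 + δ)` in absolute value. -/
theorem result (b n : ℕ) (hb : 2 ≤ b) (δ : ℝ) (hδ : 0 < δ) (A : ℕ) :
    ∃ c : ℝ, 0 < c ∧ ∃ y₀ : ℕ,
    ∀ K r y : ℕ, 2 * r ≤ K → y₀ ≤ y →
    ∀ N : ℕ, N < b ^ K → ∀ g : ℕ → ℕ, (∀ j, g j < b ∧ g j ≠ digit b j N) →
    ∀ (κ : Type) (h : κ → ℤ[X]) (φ : κ → ℕ → ℕ → ℝ) (Λ : ℕ → Finset κ), (∀ i, (h i).Monic ∧ (h i).natDegree ≤ n) → (∀ i p a, |φ i p a| ≤ 1) →
      (∀ x, (Λ x).card ≤ x ^ A) →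
      (exceptions b K r N g (fun t => ∀ x : ℕ, y ≤ x → (x : ℝ) ≤ Real.exp (c * r) → ∀ i ∈ Λ x,
        |rootSum ((h i).comp (X - C (t : ℤ))) (φ i) x| ≤ (x : ℝ) ^ (1 / 2 + δ)) : ℝ) ≤
        1 / (y : ℝ) ^ A * (K.choose r : ℝ) := by
  classical
  obtain ⟨c, hc, y₀, H⟩ := mz_law_one b hb (δ / 2) (by positivity) A A
  obtain ⟨x₁, hx₁⟩ := absorb (2 * ((n : ℝ) + 1)) (δ / 2) (by positivity) (by positivity)
  refine ⟨c, hc, y₀ + x₁ + 2, fun K r y hrK hy N hN g hg κ h φ Λ hh hφ hΛ => ?_⟩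
  have hn0 : (0 : ℝ) ≤ n := Nat.cast_nonneg n
  have h2 := H K r y hrK (by omega) N hN g hg κ Λ (fun x _ => hΛ x)
    (fun x i p t => Z (h i) (φ i) p t)
    (fun x i p t hp' => by
      have : Fact p.Prime := ⟨hp'⟩
      exact Z_mod (h i) (φ i) t)
    (fun x _ => 2 * ((n : ℝ) + 1) * Real.sqrt x) (fun x _ i _ => by positivity) ?_ ?_ ?_
    (fun t => ∀ x : ℕ, y ≤ x → (x : ℝ) ≤ Real.exp (c * r) → ∀ i ∈ Λ x,
        |rootSum ((h i).comp (X - C (t : ℤ))) (φ i) x| ≤ (x : ℝ) ^ (1 / 2 + δ)) ?_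
  · unfold exceptions
    exact h2
  · -- the bound
    intro x hx i _ p hp' t
    rw [mem_op] at hp'
    have : Fact p.Prime := ⟨hp'.2.1⟩
    refine (Z_le n (h i) (hh i).1 (hh i).2 (φ i) (hφ i) t).trans ?_
    have hs : 1 ≤ Real.sqrt x := by
      rw [Real.one_le_sqrt]
      exact_mod_cast (by omega : 1 ≤ x)
    nlinarith
  · -- the means
    intro x hx i _ p hp'
    rw [mem_op] at hp'
    have : Fact p.Prime := ⟨hp'.2.1⟩
    exact Z_mean (h i) (φ i)
  · -- the variance
    intro x hx i _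
    have hone : ∀ p ∈ op x, (∑ t ∈ range p, Z (h i) (φ i) p t ^ 2) / (p : ℝ) ≤ (2 * n) ^ 2 := by
      intro p hp'
      rw [mem_op] at hp'
      have : Fact p.Prime := ⟨hp'.2.1⟩
      have hp0 : (0 : ℝ) < p := by exact_mod_cast hp'.2.1.pos
      rw [div_le_iff₀ hp0]
      have h3 : ∀ t ∈ range p, Z (h i) (φ i) p t ^ 2 ≤ (2 * (n : ℝ)) ^ 2 := by
        intro t _
        rw [← sq_abs]
        exact pow_le_pow_left₀ (abs_nonneg _) (Z_le n (h i) (hh i).1 (hh i).2 (φ i) (hφ i) t) 2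
      refine (sum_le_sum h3).trans ?_
      rw [sum_const, card_range, nsmul_eq_mul, mul_comm]
    refine (sum_le_sum hone).trans ?_
    have hsq : (2 * ((n : ℝ) + 1) * Real.sqrt x) ^ 2 = x * (2 * ((n : ℝ) + 1)) ^ 2 := by
      rw [mul_pow, Real.sq_sqrt (Nat.cast_nonneg x), mul_comm]
    rw [sum_const, nsmul_eq_mul, hsq]
    have h4 := cardop_le x
    have h5 : (2 * (n : ℝ)) ^ 2 ≤ (2 * ((n : ℝ) + 1)) ^ 2 := pow_le_pow_left₀ (by positivity) (by linarith) 2
    exact mul_le_mul h4 h5 (by positivity) (Nat.cast_nonneg x)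
  · -- the conclusion
    intro t ht x hyx hxr i hi
    have hx0 : (0 : ℝ) < x := by exact_mod_cast (by omega : 0 < x)
    have h4 := ht x hyx hxr i hi
    have h5 : rootSum ((h i).comp (X - C (t : ℤ))) (φ i) x = ∑ p ∈ op x, Z (h i) (φ i) p t := by
      unfold rootSum
      have e : (range (x + 1)).filter (fun p => p.Prime ∧ p ≠ 2) = op x := by
        ext p
        rw [mem_filter, mem_range, mem_op, Nat.lt_succ_iff]
      rw [e]
      rfl
    rw [h5]
    refine h4.trans ?_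
    have h6 := hx₁ x (by omega)
    have hlx0 : 0 ≤ Real.log x := Real.log_natCast_nonneg x
    have hpow : (x : ℝ) ^ (1 / 2 + δ) = Real.sqrt x * ((x : ℝ) ^ (δ / 2) * (x : ℝ) ^ (δ / 2)) := by
      rw [← Real.rpow_add hx0, Real.sqrt_eq_rpow, ← Real.rpow_add hx0]
      congr 1
      ring
    have h8 : 2 * ((n : ℝ) + 1) ≤ (x : ℝ) ^ (δ / 2) := by
      refine le_trans ?_ h6
      have : 0 ≤ 2 * ((n : ℝ) + 1) * Real.log x := by positivity
      linarith
    rw [hpow]
    have hs0 : 0 ≤ Real.sqrt x := Real.sqrt_nonneg _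
    calc 2 * ((n : ℝ) + 1) * Real.sqrt x * (x : ℝ) ^ (δ / 2) = Real.sqrt x * (2 * ((n : ℝ) + 1) * (x : ℝ) ^ (δ / 2)) := by ring
      _ ≤ Real.sqrt x * ((x : ℝ) ^ (δ / 2) * (x : ℝ) ^ (δ / 2)) := by gcongr

end Pool.Agent.Results.MP_fd299c_nt.FewDigitShifts
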